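import Mathlib

namespace Pool.Agent.Results.MP_530eb6_co.OddOrders

/-- The independent domination number: the least cardinality of a maximal independent set. -/
noncomputable def indepDomNum {V : Type*} (G : SimpleGraph V) : ℕ :=
  sInf {m : ℕ | ∃ S : Finset V,
    Maximal (fun T : Finset V => G.IsIndepSet (T : Set V)) S ∧ S.card = m}

/-- The maximum of `i(G) * i(complement of G)` over all graphs `G` on `n` vertices. -/
noncomputable def maxProd (n : ℕ) : ℕ :=
  sSup {m : ℕ | ∃ G : SimpleGraph (Fin n), m = indepDomNum G * indepDomNum Gᶜ}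

open Finset

section general

variable {V : Type*} [Fintype V]

lemma exists_maximal (G : SimpleGraph V) :
    ∃ S : Finset V, Maximal (fun T : Finset V => G.IsIndepSet (T : Set V)) S := by
  have hfin : ({T : Finset V | G.IsIndepSet (T : Set V)}).Finite := Set.toFinite _
  have hne : ({T : Finset V | G.IsIndepSet (T : Set V)}).Nonempty :=
    ⟨∅, by simp [SimpleGraph.IsIndepSet]⟩
  obtain ⟨S, hS⟩ := hfin.exists_maximal hne
  exact ⟨S, hS⟩

lemma le_indepDomNum (G : SimpleGraph V) (a : ℕ)
    (h : ∀ S : Finset V, Maximal (fun T : Finset V => G.IsIndepSet (T : Set V)) S → a ≤ S.card) :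
    a ≤ indepDomNum G := by
  obtain ⟨S, hS⟩ := exists_maximal G
  refine le_csInf ⟨S.card, S, hS, rfl⟩ ?_
  rintro m ⟨T, hT, rfl⟩
  exact h T hT

lemma indepDomNum_le (G : SimpleGraph V) : indepDomNum G ≤ Fintype.card V := by
  obtain ⟨S, hS⟩ := exists_maximal G
  have h1 : indepDomNum G ≤ S.card := Nat.sInf_le ⟨S, hS, rfl⟩
  exact h1.trans (Finset.card_le_univ S)

/-- Lower bound on the independent domination number of a split graph. -/
lemma split_bound [DecidableEq V] (G : SimpleGraph V) (P : V → Prop) [DecidablePred P] [DecidableRel G.Adj]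
    (α : ℕ)
    (h1 : ∀ x y, P x → P y → ¬ G.Adj x y)
    (h2 : ∀ x y, ¬ P x → ¬ P y → x ≠ y → G.Adj x y)
    (h3 : α + 1 ≤ (univ.filter (fun x => P x)).card)
    (h4 : ∀ y, ¬ P y → α ≤ (univ.filter (fun x => P x ∧ ¬ G.Adj x y)).card) :
    α + 1 ≤ indepDomNum G := by
  apply le_indepDomNum
  intro S hS
  have hind : ∀ x ∈ S, ∀ y ∈ S, ¬ G.Adj x y := by
    intro x hx y hy hxy
    have := hS.1
    exact this (by exact_mod_cast hx) (by exact_mod_cast hy) (G.ne_of_adj hxy) hxy
  have hins : ∀ z, (∀ x ∈ S, ¬ G.Adj x z) → z ∈ S := by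
    intro z hz
    have hi : G.IsIndepSet ((insert z S : Finset V) : Set V) := by
      intro x hx y hy hxy hadj
      simp only [Finset.coe_insert, Set.mem_insert_iff, Finset.mem_coe] at hx hy
      rcases hx with rfl | hx <;> rcases hy with rfl | hy
      · exact hxy rfl
      · exact hz y hy hadj.symm
      · exact hz x hx hadj
      · exact hind x hx y hy hadj
    have := hS.2 hi (Finset.subset_insert z S)
    exact this (Finset.mem_insert_self z S)
  by_cases hy : ∃ y ∈ S, ¬ P y
  · obtain ⟨y, hyS, hyP⟩ := hy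
    have hsub : insert y (univ.filter (fun x => P x ∧ ¬ G.Adj x y)) ⊆ S := by
      intro z hz
      rw [Finset.mem_insert] at hz
      rcases hz with rfl | hz
      · exact hyS
      · rw [Finset.mem_filter] at hz
        obtain ⟨-, hzP, hzy⟩ := hz
        apply hins
        intro x hx hxz
        by_cases hxP : P x
        · exact h1 x z hxP hzP hxz
        · by_cases hxy : x = y
          · subst hxy
            exact hzy hxz.symm
          · exact hind x hx y hyS (h2 x y hxP hyP hxy)
    have hnot : y ∉ univ.filter (fun x => P x ∧ ¬ G.Adj x y) := by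
      simp [hyP]
    have := Finset.card_le_card hsub
    rw [Finset.card_insert_of_notMem hnot] at this
    have := h4 y hyP
    omega
  · push Not at hy
    have hsub : univ.filter (fun x => P x) ⊆ S := by
      intro z hz
      rw [Finset.mem_filter] at hz
      apply hins
      intro x hx hxz
      exact h1 x z (hy x hx) hz.2 hxz
    exact h3.trans (Finset.card_le_card hsub)

/-- Both numbers for a split graph at once. -/
lemma split_bound_both [DecidableEq V] (G : SimpleGraph V) (P : V → Prop) [DecidablePred P] [DecidableRel G.Adj]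
    (α β : ℕ)
    (h1 : ∀ x y, P x → P y → ¬ G.Adj x y)
    (h2 : ∀ x y, ¬ P x → ¬ P y → x ≠ y → G.Adj x y)
    (h3 : α + 1 ≤ (univ.filter (fun x => P x)).card)
    (h3' : β + 1 ≤ (univ.filter (fun x => ¬ P x)).card)
    (h4 : ∀ y, ¬ P y → α ≤ (univ.filter (fun x => P x ∧ ¬ G.Adj x y)).card)
    (h4' : ∀ y, P y → β ≤ (univ.filter (fun x => ¬ P x ∧ G.Adj x y)).card) :
    (α + 1) * (β + 1) ≤ indepDomNum G * indepDomNum Gᶜ := by
  apply Nat.mul_le_mul
  · exact split_bound G P α h1 h2 h3 h4
  · apply split_bound Gᶜ (fun x => ¬ P x) β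
    · intro x y hx hy hxy
      rw [SimpleGraph.compl_adj] at hxy
      exact hxy.2 (h2 x y hx hy hxy.1)
    · intro x y hx hy hxy
      rw [not_not] at hx hy
      rw [SimpleGraph.compl_adj]
      exact ⟨hxy, h1 x y hx hy⟩
    · exact h3'
    · intro y hy
      rw [not_not] at hy
      refine (h4' y hy).trans (Finset.card_le_card ?_)
      intro x hx
      simp only [Finset.mem_filter, Finset.mem_univ, true_and] at hx ⊢
      refine ⟨hx.1, ?_⟩
      rw [SimpleGraph.compl_adj]
      push Not
      intro _
      exact hx.2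

end general

lemma maxProd_ge {V : Type} [Fintype V] [DecidableEq V] (G : SimpleGraph V)
    (P : V → Prop) [DecidablePred P] [DecidableRel G.Adj] (n : ℕ) (hn : Fintype.card V = n)
    (α β : ℕ)
    (h1 : ∀ x y, P x → P y → ¬ G.Adj x y)
    (h2 : ∀ x y, ¬ P x → ¬ P y → x ≠ y → G.Adj x y)
    (h3 : α + 1 ≤ (univ.filter (fun x => P x)).card)
    (h3' : β + 1 ≤ (univ.filter (fun x => ¬ P x)).card)
    (h4 : ∀ y, ¬ P y → α ≤ (univ.filter (fun x => P x ∧ ¬ G.Adj x y)).card)
    (h4' : ∀ y, P y → β ≤ (univ.filter (fun x => ¬ P x ∧ G.Adj x y)).card) :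
    (α + 1) * (β + 1) ≤ maxProd n := by
  classical
  have e : Fin n ≃ V := (Fintype.equivFinOfCardEq hn).symm
  let H : SimpleGraph (Fin n) := G.comap e
  have hcard : ∀ Q : V → Prop, [DecidablePred Q] → (univ.filter (fun x => Q x)).card ≤
      (univ.filter (fun x : Fin n => Q (e x))).card := by
    intro Q _
    apply Finset.card_le_card_of_injOn (fun x => e.symm x)
    · intro x hx
      simp only [Finset.coe_filter, Finset.mem_univ, true_and, Set.mem_ofPred_eq] at hx ⊢
      simpa using hx
    · intro x _ y _ hxy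
      exact e.symm.injective hxy
  have key : (α + 1) * (β + 1) ≤ indepDomNum H * indepDomNum Hᶜ := by
    apply split_bound_both H (fun x => P (e x)) α β
    · intro x y hx hy hxy
      exact h1 _ _ hx hy hxy
    · intro x y hx hy hxy
      exact h2 _ _ hx hy (fun h => hxy (e.injective h))
    · exact h3.trans (hcard _)
    · exact h3'.trans (hcard (fun x => ¬ P x))
    · intro y hy
      exact (h4 (e y) hy).trans (hcard (fun x => P x ∧ ¬ G.Adj x (e y)))
    · intro y hy
      exact (h4' (e y) hy).trans (hcard (fun x => ¬ P x ∧ G.Adj x (e y)))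
  refine key.trans ?_
  apply le_csSup
  · refine ⟨n * n, ?_⟩
    rintro m ⟨K, rfl⟩
    apply Nat.mul_le_mul
    · simpa using indepDomNum_le K
    · simpa using indepDomNum_le Kᶜ
  · exact ⟨H, rfl⟩


/-- The vertices of the block graph. -/
abbrev BV (N u v : ℕ) : Type := Fin N × (Fin u ⊕ Fin v)

/-- The adjacency of the block graph. -/
def blockAdj (N u v w : ℕ) [NeZero N] (x y : BV N u v) : Prop :=
  match x, y with
  | (_, Sum.inl _), (_, Sum.inl _) => False
  | (i, Sum.inl _), (j, Sum.inr _) => (j - i).val < w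
  | (j, Sum.inr _), (i, Sum.inl _) => (j - i).val < w
  | (i, Sum.inr s), (j, Sum.inr t) => i ≠ j ∨ s ≠ t

/-- The block graph: a split graph. -/
def blockGraph (N u v w : ℕ) [NeZero N] : SimpleGraph (BV N u v) where
  Adj x y := blockAdj N u v w x y
  symm := ⟨by
    rintro ⟨i, s | s⟩ ⟨j, t | t⟩ h
    · exact h
    · exact h
    · exact h
    · rcases h with h | h
      · exact Or.inl (Ne.symm h)
      · exact Or.inr (Ne.symm h)⟩
  loopless := ⟨by
    rintro ⟨i, s | s⟩ h
    · exact h
    · rcases h with h | h <;> exact h rfl⟩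

lemma card_fin_lt (N w : ℕ) (hw : w ≤ N) :
    (univ.filter (fun d : Fin N => d.val < w)).card = w := by
  have : (univ.filter (fun d : Fin N => d.val < w)).card = (Finset.range w).card := by
    apply Finset.card_bij (fun d _ => d.val)
    · intro d hd
      simpa using hd
    · intro d _ d' _ h
      exact Fin.ext h
    · intro b hb
      rw [Finset.mem_range] at hb
      exact ⟨⟨b, by omega⟩, by simpa using hb, rfl⟩
  simpa using this

lemma card_fin_ge (N w : ℕ) (hw : w ≤ N) :
    (univ.filter (fun d : Fin N => ¬ d.val < w)).card = N - w := by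
  have h := Finset.card_filter_add_card_filter_not (s := (univ : Finset (Fin N)))
    (fun d : Fin N => d.val < w)
  rw [card_fin_lt N w hw] at h
  simp only [Finset.card_univ, Fintype.card_fin] at h
  omega

lemma block_bound (N u v w : ℕ) (hw : 1 ≤ w) (hwN : w < N) (hu : 1 ≤ u) (hv : 1 ≤ v) :
    ((N - w) * u + 1) * (w * v + 1) ≤ maxProd (N * (u + v)) := by
  classical
  have : NeZero N := ⟨by omega⟩
  apply maxProd_ge (blockGraph N u v w) (fun x => x.2.isLeft = true)
  · simp
  · rintro ⟨i, s | s⟩ ⟨j, t | t⟩ hx hy h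
    · exact h
    · simp at hy
    · simp at hx
    · simp at hx
  · rintro ⟨i, s | s⟩ ⟨j, t | t⟩ hx hy h
    · simp at hx
    · simp at hx
    · simp at hy
    · show i ≠ j ∨ s ≠ t
      by_contra hcon
      push Not at hcon
      exact h (by rw [hcon.1, hcon.2])
  · -- number of independent vertices
    have h1 : (univ : Finset (Fin N × Fin u)).card ≤
        (univ.filter (fun x : BV N u v => x.2.isLeft = true)).card := by
      apply Finset.card_le_card_of_injOn (fun x => (x.1, Sum.inl x.2))
      · intro x _
        simp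
      · rintro ⟨a, b⟩ _ ⟨c, d⟩ _ h
        simpa using h
    refine le_trans ?_ h1
    simp only [Finset.card_univ, Fintype.card_prod, Fintype.card_fin]
    have h2 : (N - w) * u + w * u = N * u := by rw [← add_mul]; congr 1; omega
    have h3 : 1 ≤ w * u := Nat.mul_pos hw hu
    omega
  · have h1 : (univ : Finset (Fin N × Fin v)).card ≤
        (univ.filter (fun x : BV N u v => ¬ x.2.isLeft = true)).card := by
      apply Finset.card_le_card_of_injOn (fun x => (x.1, Sum.inr x.2))
      · intro x _
        simp
      · rintro ⟨a, b⟩ _ ⟨c, d⟩ _ h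
        simpa using h
    refine le_trans ?_ h1
    simp only [Finset.card_univ, Fintype.card_prod, Fintype.card_fin]
    have h2 : (N - w) * v + w * v = N * v := by rw [← add_mul]; congr 1; omega
    have h3 : 1 ≤ (N - w) * v := Nat.mul_pos (by omega) hv
    omega
  · rintro ⟨j, t | t⟩ hy
    · simp at hy
    · have h1 : ((univ.filter (fun d : Fin N => ¬ d.val < w)) ×ˢ (univ : Finset (Fin u))).card ≤
          (univ.filter (fun x : BV N u v => x.2.isLeft = true ∧
            ¬ (blockGraph N u v w).Adj x (j, Sum.inr t))).card := by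
        apply Finset.card_le_card_of_injOn (fun x => (j - x.1, Sum.inl x.2))
        · rintro ⟨d, s⟩ hx
          simp only [Finset.coe_product, Set.mem_prod, Finset.coe_filter, Finset.mem_univ,
            true_and, Set.mem_ofPred_eq] at hx
          simp only [Finset.coe_filter, Finset.mem_univ, true_and, Set.mem_ofPred_eq]
          refine ⟨rfl, ?_⟩
          show ¬ (j - (j - d)).val < w
          rw [sub_sub_cancel]
          exact hx.1
        · rintro ⟨a, b⟩ _ ⟨c, d⟩ _ h
          simpa using h
      refine le_trans ?_ h1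
      rw [Finset.card_product, card_fin_ge N w hwN.le]
      simp
  · rintro ⟨i, s | s⟩ hy
    · have h1 : ((univ.filter (fun d : Fin N => d.val < w)) ×ˢ (univ : Finset (Fin v))).card ≤
          (univ.filter (fun x : BV N u v => ¬ x.2.isLeft = true ∧
            (blockGraph N u v w).Adj x (i, Sum.inl s))).card := by
        apply Finset.card_le_card_of_injOn (fun x => (x.1 + i, Sum.inr x.2))
        · rintro ⟨d, t⟩ hx
          simp only [Finset.coe_product, Set.mem_prod, Finset.coe_filter, Finset.mem_univ,
            true_and, Set.mem_ofPred_eq] at hx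
          simp only [Finset.coe_filter, Finset.mem_univ, true_and, Set.mem_ofPred_eq]
          refine ⟨by simp, ?_⟩
          show (d + i - i).val < w
          rw [add_sub_cancel_right]
          exact hx.1
        · rintro ⟨a, b⟩ _ ⟨c, d⟩ _ h
          simpa using h
      refine le_trans ?_ h1
      rw [Finset.card_product, card_fin_lt N w hwN.le]
      simp
    · simp at hy

lemma odd_square (t : ℕ) (ht : 1 ≤ t) :
    ((2 * t + 1) * (2 * t + 1) + 3) ^ 2 / 16 < maxProd ((2 * t + 1) * (2 * t + 1)) := by
  have h := block_bound (2 * t + 1) (t + 1) t t ht (by omega) (by omega) ht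
  have e1 : 2 * t + 1 - t = t + 1 := by omega
  have e2 : t + 1 + t = 2 * t + 1 := by ring
  rw [e1, e2] at h
  refine lt_of_lt_of_le ?_ h
  have e3 : ((2 * t + 1) * (2 * t + 1) + 3) ^ 2 = (t ^ 2 + t + 1) ^ 2 * 16 := by ring
  rw [e3, Nat.mul_div_cancel _ (by norm_num)]
  have e4 : ((t + 1) * (t + 1) + 1) * (t * t + 1) = (t ^ 2 + t + 1) ^ 2 + 1 := by ring
  omega

lemma pred_square (d : ℕ) (hd : 1 ≤ d) :
    ((2 * d + 3) * (2 * d + 1) + 3) ^ 2 / 16 < maxProd ((2 * d + 3) * (2 * d + 1)) := by
  have h := block_bound (2 * d + 3) (d + 1) d (d + 1) (by omega) (by omega) (by omega) hd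
  have e1 : 2 * d + 3 - (d + 1) = d + 2 := by omega
  have e2 : d + 1 + d = 2 * d + 1 := by ring
  rw [e1, e2] at h
  refine lt_of_lt_of_le ?_ h
  rw [Nat.div_lt_iff_lt_mul (by norm_num)]
  have e3 : ((2 * d + 3) * (2 * d + 1) + 3) ^ 2 + 12 =
      ((d + 2) * (d + 1) + 1) * ((d + 1) * d + 1) * 16 := by ring
  omega

/-- The displayed formula for the maximum of `i(G) * i(complement of G)` is false, and it fails
for every odd `n ≥ 9` such that `n` or `n + 1` is a perfect square. -/
theorem result :
    (¬ ∀ n : ℕ, 4 ≤ n →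
      maxProd n = if Even n then (n + 4) ^ 2 / 16 else (n + 3) ^ 2 / 16) ∧
    (∀ n : ℕ, 9 ≤ n → Odd n → (IsSquare n ∨ IsSquare (n + 1)) →
      (n + 3) ^ 2 / 16 < maxProd n) := by
  have key : ∀ n : ℕ, 9 ≤ n → Odd n → (IsSquare n ∨ IsSquare (n + 1)) →
      (n + 3) ^ 2 / 16 < maxProd n := by
    intro n hn hodd hsq
    rcases hsq with ⟨r, hr⟩ | ⟨r, hr⟩
    · have hrodd : Odd r := by
        rw [hr] at hodd
        exact (Nat.odd_mul.mp hodd).1
      obtain ⟨t, rfl⟩ := hrodd
      have ht : 1 ≤ t := by
        by_contra hcon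
        have : t = 0 := by omega
        subst this
        omega
      rw [hr]
      exact odd_square t ht
    · have hreven : Even r := by
        have h1 : Even (n + 1) := Odd.add_one hodd
        rw [hr] at h1
        rcases Nat.even_mul.mp h1 with h | h <;> exact h
      obtain ⟨c, hc⟩ := hreven
      have hc2 : 2 ≤ c := by
        by_contra hcon
        have : c = 0 ∨ c = 1 := by omega
        rcases this with rfl | rfl
        · subst hc
          omega
        · subst hc
          omega
      obtain ⟨d, rfl⟩ : ∃ d, c = d + 1 := ⟨c - 1, by omega⟩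
      have hn' : n = (2 * d + 3) * (2 * d + 1) := by
        have h2 : (d + 1 + (d + 1)) * (d + 1 + (d + 1)) = (2 * d + 3) * (2 * d + 1) + 1 := by
          ring
        rw [hc, h2] at hr
        omega
      rw [hn']
      exact pred_square d (by omega)
  refine ⟨?_, key⟩
  intro h
  have h9 := key 9 le_rfl (by decide) (Or.inl ⟨3, by norm_num⟩)
  have h9' := h 9 (by norm_num)
  have hne : ¬ Even 9 := by decide
  rw [if_neg hne] at h9'
  omega

end Pool.Agent.Results.MP_530eb6_co.OddOrders
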